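import Mathlib
import Pool.Agent.P8H30.SW.Stm
import Pool.Agent.P8H30.FF.Darb
import Pool.Agent.H204R3.GP.TateG

set_option autoImplicit false
set_option linter.unusedSectionVars false
set_option linter.unusedVariables false

/-!
# SW/FFT: the first fundamental theorem for a product of symplectic groups

(helper45, for project SW of helper30; the proof follows `tateG_mem` of the library)
-/

namespace Pool.Agent.P8H45.SW.Fft

open Module Pool.Agent.P8H30.SW Pool.Agent.N208.LC Pool.Agent.P8H30.FF.Darb
open Pool.Agent.H204R3.CM Pool.Agent.H204R3.SP Pool.Agent.H204R3.GP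

theorem even_of_nondeg {W : Type} [AddCommGroup W] [Module ℂ W] [FiniteDimensional ℂ W]
    (β : W →ₗ[ℂ] W →ₗ[ℂ] ℂ) (h1 : ∀ x y, β x y = - β y x) (h2 : ∀ x, (∀ y, β x y = 0) → x = 0) :
    Even (Module.finrank ℂ W) := by
  let b := Module.finBasis ℂ W
  let A : Matrix (Fin (Module.finrank ℂ W)) (Fin (Module.finrank ℂ W)) ℂ :=
    Matrix.of fun i j => β (b i) (b j)
  have hA : A.transpose = -A := by
    ext i j
    show β (b j) (b i) = - β (b i) (b j)
    exact h1 _ _
  have hdet : A.det ≠ 0 := by
    intro h0
    obtain ⟨v, hv, hv'⟩ := Matrix.exists_vecMul_eq_zero_iff.2 h0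
    apply hv
    have hx : ∑ i, v i • b i = 0 := by
      apply h2
      intro y
      have h3 : ∀ j, β (∑ i, v i • b i) (b j) = 0 := by
        intro j
        have := congrFun hv' j
        simpa [Matrix.vecMul, dotProduct, A] using this
      have h4 : β (∑ i, v i • b i) = 0 := b.ext h3
      rw [h4]; rfl
    have := b.linearIndependent
    rw [Fintype.linearIndependent_iff] at this
    funext i
    exact this v hx i
  have h3 : A.det = (-1) ^ (Module.finrank ℂ W) * A.det := by
    conv_lhs => rw [← Matrix.det_transpose, hA, Matrix.det_neg]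
    simp
  by_contra hodd
  rw [Nat.not_even_iff_odd] at hodd
  rw [hodd.neg_one_pow] at h3
  apply hdet
  linear_combination h3 / 2

section

variable {V Q : Type} [AddCommGroup V] [Module ℂ V] [FiniteDimensional ℂ V] [DecidableEq Q]
  {n : ℕ} (b : Basis (Fin n) ℂ V) (χ : Fin n → Q) (ω : V →ₗ[ℂ] V →ₗ[ℂ] ℂ)

/-- the classes which occur -/
abbrev Cl (χ : Fin n → Q) : Type := {c : Q // c ∈ Finset.univ.image χ}

/-- the space of a class -/
def VC (c : Q) : Submodule ℂ V := Submodule.span ℂ (b '' {i | χ i = c})

theorem orth (hb : ∀ i j, χ i ≠ χ j → ω (b i) (b j) = 0) {c c' : Q} (h : c ≠ c') {u v : V}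
    (hu : u ∈ VC b χ c) (hv : v ∈ VC b χ c') : ω u v = 0 := by
  unfold VC at hu hv
  induction hu using Submodule.span_induction with
  | mem u hu =>
    obtain ⟨i, hi, rfl⟩ := hu
    induction hv using Submodule.span_induction with
    | mem v hv =>
      obtain ⟨j, hj, rfl⟩ := hv
      apply hb
      rw [Set.mem_ofPred_eq] at hi hj
      rw [hi, hj]
      exact h
    | zero => rw [map_zero]
    | add x y _ _ hx hy => rw [map_add, hx, hy, add_zero]
    | smul a x _ hx => rw [map_smul, hx, smul_zero]
  | zero => rw [map_zero, LinearMap.zero_apply]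
  | add x y _ _ hx hy => rw [map_add, LinearMap.add_apply, hx, hy, add_zero]
  | smul a x _ hx => rw [map_smul, LinearMap.smul_apply, hx, smul_zero]

theorem nondeg (hs : Sym ω) (hb : ∀ i j, χ i ≠ χ j → ω (b i) (b j) = 0) (c : Q) {u : V}
    (hu : u ∈ VC b χ c) (h : ∀ v ∈ VC b χ c, ω u v = 0) : u = 0 := by
  apply hs.nd
  intro v
  have h1 : ω u = 0 := by
    refine b.ext fun i => ?_
    rw [LinearMap.zero_apply]
    by_cases hi : χ i = c
    · exact h _ (Submodule.subset_span ⟨i, hi, rfl⟩)
    · exact orth b χ ω hb (Ne.symm hi) hu (Submodule.subset_span ⟨i, rfl, rfl⟩)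
  rw [h1, LinearMap.zero_apply]

theorem finrank_VC (c : Q) : finrank ℂ (VC b χ c) = (Finset.univ.filter fun i => χ i = c).card := by
  classical
  have h1 : LinearIndependent ℂ (fun i : {i // χ i = c} => b i.1) :=
    b.linearIndependent.comp _ Subtype.val_injective
  have h2 : Set.range (fun i : {i // χ i = c} => b i.1) = b '' {i | χ i = c} := by
    ext x
    constructor
    · rintro ⟨⟨i, hi⟩, rfl⟩
      exact ⟨i, hi, rfl⟩
    · rintro ⟨i, hi, rfl⟩
      exact ⟨⟨i, hi⟩, rfl⟩
  unfold VC
  rw [← h2, finrank_span_eq_card h1, Fintype.card_subtype]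

theorem exists_c (hs : Sym ω) (hb : ∀ i j, χ i ≠ χ j → ω (b i) (b j) = 0) (c : Q) :
    ∃ (k : ℕ) (e : Fin k × Fin 2 → V), (∀ x, e x ∈ VC b χ c) ∧
      (∀ x y, ω (e x) (e y) = Jst x y) ∧ (Finset.univ.filter fun i => χ i = c).card = 2 * k := by
  let ω' : VC b χ c →ₗ[ℂ] VC b χ c →ₗ[ℂ] ℂ := ω.domRestrict₁₂ (VC b χ c) (VC b χ c)
  have hω' : ∀ u v : VC b χ c, ω' u v = ω u v := fun u v => rfl
  have hnd : ∀ u : VC b χ c, (∀ v, ω' u v = 0) → u = 0 := by
    intro u hu
    apply Subtype.ext
    exact nondeg b χ ω hs hb c u.2 fun v hv => hu ⟨v, hv⟩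
  have hev : Even (finrank ℂ (VC b χ c)) :=
    even_of_nondeg ω' (fun x y => by
      rw [hω', hω']
      exact anti hs.alt _ _) hnd
  obtain ⟨k, hk⟩ := hev
  obtain ⟨e, he⟩ := exists_sympl k (VC b χ c) ω' (fun v => hs.alt _) hnd (by omega)
  refine ⟨k, fun x => (e x : V), fun x => (e x).2, fun x y => he x y, ?_⟩
  rw [← finrank_VC b χ c]
  omega

theorem repr_VC {c : Q} {u : V} (hu : u ∈ VC b χ c) (i : Fin n) (hi : χ i ≠ c) :
    b.repr u i = 0 := by
  unfold VC at hu
  induction hu using Submodule.span_induction with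
  | mem u hu =>
    obtain ⟨j, hj, rfl⟩ := hu
    rw [Set.mem_ofPred_eq] at hj
    rw [Basis.repr_self, Finsupp.single_eq_of_ne]
    rintro rfl
    exact hi hj
  | zero => simp
  | add x y _ _ hx hy => rw [map_add, Finsupp.add_apply, hx, hy, add_zero]
  | smul a x _ hx => rw [map_smul, Finsupp.smul_apply, hx, smul_zero]

/-- the projection to a class -/
noncomputable def PQ (c : Q) : Module.End ℂ V := b.constr ℂ (fun i => if χ i = c then b i else 0)

theorem PQ_basis (c : Q) (i : Fin n) : PQ b χ c (b i) = if χ i = c then b i else 0 := by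
  unfold PQ
  rw [Basis.constr_basis]

theorem PQ_mem (c c' : Q) {u : V} (hu : u ∈ VC b χ c') : PQ b χ c u = if c' = c then u else 0 := by
  unfold VC at hu
  induction hu using Submodule.span_induction with
  | mem u hu =>
    obtain ⟨j, hj, rfl⟩ := hu
    rw [Set.mem_ofPred_eq] at hj
    rw [PQ_basis, hj]
  | zero => rw [map_zero]; split_ifs <;> rfl
  | add x y _ _ hx hy =>
    rw [map_add, hx, hy]
    split_ifs
    · rfl
    · rw [add_zero]
  | smul a x _ hx =>
    rw [map_smul, hx]
    split_ifs
    · rfl
    · rw [smul_zero]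

end

open Classical in
theorem fft : S_FFT := by
  intro V Q _ _ _ _ n b χ ω hs hb ι _ _ k hk φ hφ
  choose kk e he1 he2 he3 using fun c : Q => exists_c b χ ω hs hb c
  let R : Type := Σ c : Cl χ, Fin (kk c.1) × Fin 2
  let E0 : R → V := fun r => e r.1.1 r.2
  let inv : R → R := fun r => ⟨r.1, (r.2.1, if r.2.2 = 0 then 1 else 0)⟩
  let jj : R → ℂ := fun r => if r.2.2 = 0 then 1 else -1
  have hmem : ∀ r : R, E0 r ∈ VC b χ r.1.1 := fun r => he1 _ _
  have haux : ∀ i : Fin 2, (if (if i = 0 then (1 : Fin 2) else 0) = 0 then (1 : Fin 2) else 0) = i := by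
    decide
  have hinv : ∀ x, inv (inv x) = x := by
    rintro ⟨c, m, i⟩
    simp only [inv]
    rw [haux i]
  have hjj : ∀ x, jj (inv x) = -jj x := by
    rintro ⟨c, m, i⟩
    simp only [inv, jj]
    fin_cases i <;> simp
  have hj0 : ∀ x, jj x ≠ 0 := by
    rintro ⟨c, m, i⟩
    simp only [jj]
    split_ifs <;> norm_num
  have hω : ∀ x y, ω (E0 x) (E0 y) = JJ inv jj x y := by
    rintro ⟨c, x⟩ ⟨c', y⟩
    by_cases hc : c = c'
    · subst hc
      have h1 : ω (E0 ⟨c, x⟩) (E0 ⟨c, y⟩) = Jst x y := he2 _ _ _
      rw [h1]
      obtain ⟨m, i⟩ := x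
      obtain ⟨m', i'⟩ := y
      unfold JJ Jst
      simp only [inv, jj]
      by_cases hm : m = m'
      · subst hm
        fin_cases i <;> fin_cases i' <;> simp
        · intro h
          have h2 : ((m, (0 : Fin 2)) : Fin (kk c.1) × Fin 2) = (m, 1) :=
            eq_of_heq (Sigma.mk.inj h).2
          exact absurd (congrArg Prod.snd h2) (by simp)
        · intro h
          have h2 : ((m, (1 : Fin 2)) : Fin (kk c.1) × Fin 2) = (m, 0) :=
            eq_of_heq (Sigma.mk.inj h).2
          exact absurd (congrArg Prod.snd h2) (by simp)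
      · rw [if_neg hm, if_neg]
        intro h
        rw [Sigma.mk.injEq] at h
        exact hm (congrArg Prod.fst (eq_of_heq h.2)).symm
    · have h1 : ω (E0 ⟨c, x⟩) (E0 ⟨c', y⟩) = 0 :=
        orth b χ ω hb (fun h => hc (Subtype.ext h)) (hmem ⟨c, x⟩) (hmem ⟨c', y⟩)
      rw [h1]
      unfold JJ
      rw [if_neg]
      intro h
      exact hc (congrArg Sigma.fst h).symm
  -- the basis
  have hli : LinearIndependent ℂ E0 := by
    rw [Fintype.linearIndependent_iff]
    intro g hg x
    have h1 := congrArg (fun v => ω v (E0 (inv x))) hg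
    simp only [map_sum, map_smul, LinearMap.sum_apply, LinearMap.smul_apply, smul_eq_mul,
      map_zero, LinearMap.zero_apply] at h1
    rw [Finset.sum_eq_single x] at h1
    · rw [hω] at h1
      unfold JJ at h1
      rw [if_pos rfl] at h1
      exact (mul_eq_zero.1 h1).resolve_right (hj0 x)
    · intro y _ hy
      rw [hω]
      unfold JJ
      rw [if_neg, mul_zero]
      intro h
      exact hy (by rw [← hinv y, ← h, hinv])
    · intro h
      exact absurd (Finset.mem_univ _) h
  have hcard : Fintype.card R = finrank ℂ V := by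
    rw [Fintype.card_sigma, finrank_eq_card_basis b, Fintype.card_fin]
    have h1 : ∀ c : Cl χ, Fintype.card (Fin (kk c.1) × Fin 2) =
        (Finset.univ.filter fun i => χ i = c.1).card := by
      intro c
      rw [he3 c.1, Fintype.card_prod, Fintype.card_fin, Fintype.card_fin, mul_comm]
    rw [Finset.sum_congr rfl fun c _ => h1 c,
      Finset.sum_coe_sort (Finset.univ.image χ) fun c => (Finset.univ.filter fun i => χ i = c).card,
      ← Finset.card_eq_sum_card_image χ Finset.univ, Finset.card_univ, Fintype.card_fin]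
  have hsp : ⊤ ≤ Submodule.span ℂ (Set.range E0) :=
    (hli.span_eq_top_of_card_eq_finrank' hcard).ge
  let E : Basis R ℂ V := Basis.mk hli hsp
  have hE : ∀ x, E x = E0 x := fun x => Basis.mk_apply hli hsp x
  let cls : R → Cl χ := fun r => r.1
  have hcls : ∀ x y, cls x = cls y → cls (inv x) = cls (inv y) := fun x y h => h
  -- the forms
  let BC : Cl χ → (V →ₗ[ℂ] V →ₗ[ℂ] ℂ) := fun c => ω.comp (PQ b χ c.1)
  have hBC' : ∀ c x y, BC c (E x) (E y) = if cls x = c then JJ inv jj x y else 0 := by
    intro c x y
    change ω (PQ b χ c.1 (E x)) (E y) = _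
    rw [hE, hE, PQ_mem b χ c.1 x.1.1 (hmem x)]
    by_cases h : cls x = c
    · have h' : x.1.1 = c.1 := congrArg Subtype.val h
      rw [if_pos h, if_pos h', hω]
    · have h' : x.1.1 ≠ c.1 := fun h'' => h (Subtype.ext h'')
      rw [if_neg h, if_neg h', map_zero, LinearMap.zero_apply]
  -- coefficients
  let coef : MultilinearMap ℂ (fun _ : ι => V) ℂ →ₗ[ℂ] ((ι → R) → ℂ) :=
    { toFun := fun φ I => φ (fun k => E (I k))
      map_add' := fun _ _ => rfl
      map_smul' := fun _ _ => rfl }
  have hinj : Function.Injective coef := fun φ φ' h =>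
    Basis.ext_multilinear (fun _ => E) fun I => congrFun h I
  have hrel : ∀ b' c, cls (inv b') = cls c → ∀ I : ι → R,
      ∑ k, (JJ inv jj b' (I k) * coef φ (Function.update I k c) +
        JJ inv jj c (I k) * coef φ (Function.update I k b')) = 0 := by
    intro b' c hbc I
    have hbc' : b'.1.1 = c.1.1 := congrArg Subtype.val hbc
    have hSk : Skew ω (SS ω (E b') (E c)) := by
      intro u v
      simp only [SS_apply, map_add, map_smul, LinearMap.add_apply, LinearMap.smul_apply,
        smul_eq_mul]
      rw [anti hs.alt u (E c), anti hs.alt u (E b')]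
      ring
    have h2 : Kil (SS ω (E b') (E c)) φ := by
      apply hφ _ hSk
      intro i j hij
      rw [SS_apply, hE, hE]
      by_cases hj : χ j = c.1.1
      · have hc1 : b.repr (E0 c) i = 0 :=
          repr_VC b χ (hmem c) i (by rw [← hj]; exact hij)
        have hc2 : b.repr (E0 b') i = 0 :=
          repr_VC b χ (hmem b') i (by rw [hbc', ← hj]; exact hij)
        simp [hc1, hc2]
      · have hj1 : b j ∈ VC b χ (χ j) := Submodule.subset_span ⟨j, rfl, rfl⟩
        rw [orth b χ ω hb (Ne.symm hj) (hmem c) hj1,
          orth b χ ω hb (by rw [hbc']; exact Ne.symm hj) (hmem b') hj1]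
        simp
    have h3 := h2 (fun k => E (I k))
    rw [← h3]
    refine Finset.sum_congr rfl fun k _ => ?_
    rw [SS_apply, hE, hE, hE, hω, hω, ← hE, ← hE, MultilinearMap.map_update_add,
      MultilinearMap.map_update_smul, MultilinearMap.map_update_smul, smul_eq_mul, smul_eq_mul]
    have h4 : ∀ z : R, coef φ (Function.update I k z) =
        φ (Function.update (fun k => E (I k)) k (E z)) := by
      intro z
      change φ (fun l => E (Function.update I k z l)) = _
      congr 1
      funext l
      by_cases hl : l = k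
      · subst hl
        rw [Function.update_self, Function.update_self]
      · rw [Function.update_of_ne hl, Function.update_of_ne hl]
    rw [h4, h4]
  let F : (ι → Cl χ) → ((ι → R) → ℂ) := fun t I =>
    if (fun k => cls (I k)) = t then coef φ I else 0
  have hF : coef φ = ∑ t, F t := by
    funext I
    rw [Finset.sum_apply]
    simp only [F]
    rw [Finset.sum_ite_eq, if_pos (Finset.mem_univ _)]
  have hFt : ∀ t, F t ∈ InvG cls inv jj ι t := by
    intro t
    refine ⟨fun b' c hbc I => ?_, fun I hI k => ?_⟩
    · have htype : ∀ (k : ι) (z : R), cls (I k) = cls z →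
          (fun l => cls (Function.update I k z l)) = fun l => cls (I l) := by
        intro k z hz
        funext l
        by_cases hl : l = k
        · subst hl
          rw [Function.update_self, hz]
        · rw [Function.update_of_ne hl]
      have h1 : ∀ k, JJ inv jj b' (I k) * F t (Function.update I k c) +
          JJ inv jj c (I k) * F t (Function.update I k b') =
          if (fun k => cls (I k)) = t then JJ inv jj b' (I k) * coef φ (Function.update I k c) +
            JJ inv jj c (I k) * coef φ (Function.update I k b') else 0 := by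
        intro k
        have e1 : JJ inv jj b' (I k) * F t (Function.update I k c) =
            if (fun k => cls (I k)) = t then JJ inv jj b' (I k) *
              coef φ (Function.update I k c) else 0 := by
          by_cases h : I k = inv b'
          · have h2 := htype k c (by rw [h, hbc])
            simp only [F]
            rw [h2]
            split_ifs
            · rfl
            · rw [mul_zero]
          · have h2 : JJ inv jj b' (I k) = 0 := by
              unfold JJ
              rw [if_neg h]
            rw [h2, zero_mul, zero_mul]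
            split_ifs <;> rfl
        have e2 : JJ inv jj c (I k) * F t (Function.update I k b') =
            if (fun k => cls (I k)) = t then JJ inv jj c (I k) *
              coef φ (Function.update I k b') else 0 := by
          by_cases h : I k = inv c
          · have h2 := htype k b' (by rw [h, ← hcls _ _ hbc, hinv])
            simp only [F]
            rw [h2]
            split_ifs
            · rfl
            · rw [mul_zero]
          · have h2 : JJ inv jj c (I k) = 0 := by
              unfold JJ
              rw [if_neg h]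
            rw [h2, zero_mul, zero_mul]
            split_ifs <;> rfl
        rw [e1, e2]
        split_ifs
        · rfl
        · rw [add_zero]
      rw [Finset.sum_congr rfl (fun k _ => h1 k)]
      by_cases hI : (fun k => cls (I k)) = t
      · simp only [if_pos hI]
        exact hrel b' c hbc I
      · simp only [if_neg hI]
        exact Finset.sum_const_zero
    · by_contra h
      apply hI
      simp only [F]
      rw [if_neg]
      rintro rfl
      exact h rfl
  have h1 : coef φ ∈ MatG cls inv jj ι k := by
    rw [hF]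
    exact Submodule.sum_mem _ fun t _ => fftG hinv hjj hj0 hcls k ι hk t (hFt t)
  have h3 : MatG cls inv jj ι k ≤ (Submodule.span ℂ (PrB ι k {γ | ∃ (P : Module.End ℂ V) (c : Q),
      (∀ i, P (b i) = if χ i = c then b i else 0) ∧ γ = ω.comp P})).map coef := by
    unfold MatG
    rw [Submodule.span_le]
    rintro _ ⟨σ, c, rfl⟩
    refine ⟨(prodMap (fun l : Fin k => bil2 (BC (c l)))).domDomCongr σ,
      Submodule.subset_span ⟨σ, fun l => BC (c l), fun l => ⟨PQ b χ (c l).1, (c l).1,
        PQ_basis b χ _, rfl⟩, fun v => rfl⟩, ?_⟩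
    funext I
    change ∏ s, BC (c s) (E (I (σ (s, 0)))) (E (I (σ (s, 1)))) = _
    exact Finset.prod_congr rfl fun s _ => hBC' _ _ _
  obtain ⟨φ', hφ', hφφ⟩ := h3 h1
  rw [← hinj hφφ]
  exact hφ'

end Pool.Agent.P8H45.SW.Fft
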