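import Pool.Agent.P8H30.SW.Stm

set_option autoImplicit false
set_option linter.unusedSectionVars false

/-!
# SW/TYP: the types of triples of skew operators on a symplectic space of dimension four
-/

open Module LieModule

namespace Pool.Agent.P8H45.SW.Typ

open Pool.Agent.P8H30.SW

attribute [local instance 100] LieRing.ofAssociativeRing

section prim

variable {U : Type} [AddCommGroup U] [Module ℂ U] [FiniteDimensional ℂ U]
variable {h e f : Module.End ℂ U}

theorem sl2 (T : Trip h e f) (he : e ≠ 0) : IsSl2Triple h e f where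
  h_ne_zero := by
    rintro rfl
    have h1 := T.he
    rw [zero_mul, mul_zero, sub_zero] at h1
    rcases smul_eq_zero.1 h1.symm with h2 | h2
    · norm_num at h2
    · exact he h2
  lie_e_f := T.ef
  lie_h_e_nsmul := by
    have h1 := T.he
    rw [show (2 : ℂ) = ((2 : ℕ) : ℂ) by norm_num, Nat.cast_smul_eq_nsmul] at h1
    exact h1
  lie_h_f_nsmul := by
    have h1 := T.hf
    rw [show (2 : ℂ) = ((2 : ℕ) : ℂ) by norm_num, Nat.cast_smul_eq_nsmul] at h1
    exact h1

/-- Every eigenvector gives rise to a primitive vector. -/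
theorem exists_prim (t : IsSl2Triple h e f) {u : U} (hu : u ≠ 0) {μ : ℂ}
    (hμ : h u = μ • u) : ∃ (n k : ℕ) (v : U), t.HasPrimitiveVectorWith v (n : ℂ) ∧ μ = n - 2 * k := by
  have hlie : ∀ n : ℕ, ⁅h, ((toEnd ℂ (Module.End ℂ U) U e) ^ n) u⁆ =
      (μ + 2 * n) • ((toEnd ℂ (Module.End ℂ U) U e) ^ n) u :=
    fun n => t.lie_h_pow_toEnd_e (m := u) (μ := μ) hμ n
  let evals (n : ℕ) : ℂ := μ + 2 * (n : ℂ)
  let e_vecs (n : ℕ) : U := ((toEnd ℂ (Module.End ℂ U) U e) ^ n) u
  have h_exists_zero : ∃ k, e_vecs k = 0 := by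
    by_contra! contra
    have h_inj : Function.Injective evals := fun a b hab ↦ by
      simpa [evals, add_right_inj, mul_eq_mul_left_iff, Nat.cast_inj] using hab
    have aux (μ : Set.range evals) : (toEnd ℂ (Module.End ℂ U) U h).HasEigenvector μ
        (e_vecs μ.property.choose) := by
      set n := μ.property.choose
      refine ⟨?_, contra n⟩
      rw [Module.End.mem_eigenspace_iff, toEnd_apply_apply, ← μ.property.choose_spec]
      exact hlie n
    have _i := ((toEnd ℂ (Module.End ℂ U) U h).eigenvectors_linearIndependent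
      (Set.range evals) _ aux).finite
    exact (Set.infinite_range_of_injective h_inj) (Set.toFinite _)
  obtain ⟨n, hn_ne, hn_zero⟩ := Nat.exists_not_and_succ_of_not_zero_of_exists
    (p := fun k => e_vecs k = 0) hu h_exists_zero
  have hP : t.HasPrimitiveVectorWith (e_vecs n) (evals n) :=
    { ne_zero := hn_ne
      lie_h := hlie n
      lie_e := by rwa [IsSl2Triple.lie_e_pow_toEnd_e n] }
  obtain ⟨m, hm⟩ := hP.exists_nat
  refine ⟨m, n, e_vecs n, by rw [← hm]; exact hP, ?_⟩
  have : evals n = μ + 2 * (n : ℂ) := rfl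
  rw [← hm, this]
  ring

variable {t : IsSl2Triple h e f} {v : U} {n : ℕ}

theorem ch_h (P : t.HasPrimitiveVectorWith v (n : ℂ)) (k : ℕ) :
    h ((f ^ k) v) = ((n : ℂ) - 2 * k) • (f ^ k) v := P.lie_h_pow_toEnd_f k

theorem ch_e (P : t.HasPrimitiveVectorWith v (n : ℂ)) (k : ℕ) :
    e ((f ^ (k + 1)) v) = (((k : ℂ) + 1) * (n - k)) • (f ^ k) v := P.lie_e_pow_succ_toEnd_f k

theorem ch_ne (P : t.HasPrimitiveVectorWith v (n : ℂ)) {k : ℕ} (hk : k ≤ n) : (f ^ k) v ≠ 0 :=
  P.pow_toEnd_f_ne_zero_of_eq_nat rfl hk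

theorem ch_zero (P : t.HasPrimitiveVectorWith v (n : ℂ)) : (f ^ (n + 1)) v = 0 :=
  P.pow_toEnd_f_eq_zero_of_eq_nat rfl

theorem ch_li (P : t.HasPrimitiveVectorWith v (n : ℂ)) :
    LinearIndependent ℂ (fun i : Fin (n + 1) => (f ^ (i : ℕ)) v) := by
  refine Module.End.eigenvectors_linearIndependent' h (fun i : Fin (n + 1) => (n : ℂ) - 2 * (i : ℕ))
    (fun i j hij => ?_) _ fun i => ?_
  · have h1 : (n : ℂ) - 2 * (i : ℕ) = (n : ℂ) - 2 * (j : ℕ) := hij
    have h2 : ((i : ℕ) : ℂ) = ((j : ℕ) : ℂ) := by linear_combination (-1 / 2) * h1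
    exact Fin.ext (Nat.cast_injective h2)
  · exact ⟨Module.End.mem_eigenspace_iff.2 (ch_h P i), ch_ne P (Nat.lt_succ_iff.1 i.2)⟩

theorem flip {w : U} (P : t.symm.HasPrimitiveVectorWith w (n : ℂ)) :
    ∃ v : U, t.HasPrimitiveVectorWith v (n : ℂ) := by
  refine ⟨(e ^ n) w, ch_ne P le_rfl, ?_, ?_⟩
  · have h1 := ch_h P n
    rw [LinearMap.neg_apply] at h1
    have h2 : h ((e ^ n) w) = (n : ℂ) • (e ^ n) w := by
      rw [← neg_neg (h ((e ^ n) w)), h1, ← neg_smul]
      congr 1
      ring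
    exact h2
  · have h1 := ch_zero P
    rw [pow_succ', Module.End.mul_apply] at h1
    exact h1

/-- all eigenvalues are integers, bounded by the weights of primitive vectors -/
theorem eig_int (t : IsSl2Triple h e f) {u : U} (hu : u ≠ 0) {μ : ℂ} (hμ : h u = μ • u) :
    ∃ n n' k k' : ℕ, (∃ v : U, t.HasPrimitiveVectorWith v (n : ℂ)) ∧
      (∃ v : U, t.HasPrimitiveVectorWith v (n' : ℂ)) ∧ μ = n - 2 * k ∧ n + n' = 2 * (k + k') := by
  obtain ⟨n, k, v, P, h1⟩ := exists_prim t hu hμ
  obtain ⟨n', k', v', P', h2⟩ := exists_prim t.symm hu (μ := -μ) (by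
    rw [LinearMap.neg_apply, hμ, neg_smul])
  refine ⟨n, n', k, k', ⟨v, P⟩, flip P', h1, ?_⟩
  have h3 : (n : ℂ) + n' = 2 * (k + k') := by linear_combination -h1 - h2
  exact_mod_cast h3

/-- Some primitive vector has positive weight. -/
theorem exists_pos (T : Trip h e f) (he : e ≠ 0) (t : IsSl2Triple h e f) :
    ∃ (n : ℕ) (v : U), t.HasPrimitiveVectorWith v (n : ℂ) ∧ 1 ≤ n := by
  by_contra hcon
  push Not at hcon
  have h1 : ∀ μ : ℂ, h.HasEigenvalue μ → μ = 0 := by
    intro μ hμ
    obtain ⟨u, hu⟩ := hμ.exists_hasEigenvector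
    obtain ⟨n, n', k, k', ⟨v, P⟩, ⟨v', P'⟩, h1, h2⟩ := eig_int t hu.2 hu.apply_eq_smul
    have h3 := hcon n v P
    have h4 := hcon n' v' P'
    have h5 : n = 0 ∧ k = 0 := by omega
    rw [h1, h5.1, h5.2]
    simp
  have h2 : IsNilpotent h := by
    refine ((LinearMap.charpoly_nilpotent_tfae h).out 0 2).2 fun m => ?_
    have h3 : m ∈ ⨆ μ : ℂ, h.maxGenEigenspace μ := by
      rw [Module.End.iSup_maxGenEigenspace_eq_top]
      exact Submodule.mem_top
    have h4 : ⨆ μ : ℂ, h.maxGenEigenspace μ ≤ h.maxGenEigenspace 0 := by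
      refine iSup_le fun μ => ?_
      by_cases hμ : h.maxGenEigenspace μ = ⊥
      · rw [hμ]
        exact bot_le
      · have h5 : h.HasUnifEigenvalue μ ⊤ := hμ
        rw [h1 μ (h5.lt one_pos)]
    obtain ⟨k, hk⟩ := (Module.End.mem_maxGenEigenspace h 0 m).1 (h4 h3)
    refine ⟨k, ?_⟩
    rwa [zero_smul, sub_zero] at hk
  have h3 : IsUnit ((2 : ℂ) • (1 : Module.End ℂ U) + h) := by
    refine h2.isUnit_add_left_of_commute ?_ ?_
    · exact (isUnit_one (M := Module.End ℂ U)).smul (Units.mk0 (2 : ℂ) two_ne_zero)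
    · exact (Commute.one_right h).smul_right _
  have h4 : ∀ k : ℕ, h ^ k * e = e * ((2 : ℂ) • (1 : Module.End ℂ U) + h) ^ k := by
    intro k
    induction k with
    | zero => simp
    | succ k ih =>
      have h5 : h * e = e * ((2 : ℂ) • (1 : Module.End ℂ U) + h) := by
        rw [mul_add, mul_smul_comm, mul_one, ← T.he]
        abel
      rw [pow_succ, mul_assoc, h5, ← mul_assoc, ih, mul_assoc, ← pow_succ]
  obtain ⟨N, hN⟩ := h2
  have h5 := h4 N
  rw [hN, zero_mul] at h5
  exact he ((h3.pow N).mul_left_eq_zero.1 h5.symm)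

end prim

section form

variable {W : Type} [AddCommGroup W] [Module ℂ W] [FiniteDimensional ℂ W]
variable {ω : W →ₗ[ℂ] W →ₗ[ℂ] ℂ} {h e f : Module.End ℂ W}

theorem anti (hs : Sym ω) (u v : W) : ω u v = -ω v u := by
  have h1 := hs.alt (u + v)
  simp only [map_add, LinearMap.add_apply, hs.alt] at h1
  linear_combination h1

theorem nondeg (hs : Sym ω) : LinearMap.BilinForm.Nondegenerate ω := by
  refine ⟨fun u hu => hs.nd u hu, fun u hu => hs.nd u fun v => ?_⟩
  rw [anti hs, hu v, neg_zero]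

/-- the orthogonal of a subspace -/
def Orth (ω : W →ₗ[ℂ] W →ₗ[ℂ] ℂ) (N : Submodule ℂ W) : Submodule ℂ W :=
  LinearMap.BilinForm.orthogonal ω N

theorem mem_Orth {N : Submodule ℂ W} {m : W} : m ∈ Orth ω N ↔ ∀ n ∈ N, ω n m = 0 := Iff.rfl

theorem finrank_Orth (hs : Sym ω) (N : Submodule ℂ W) :
    finrank ℂ (Orth ω N) = finrank ℂ W - finrank ℂ N :=
  LinearMap.BilinForm.finrank_orthogonal (nondeg hs) N

/-- orthogonality of weight vectors -/
theorem wt_orth (sh : Skew ω h) {u v : W} {μ ν : ℂ} (hu : h u = μ • u) (hv : h v = ν • v)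
    (hne : μ + ν ≠ 0) : ω u v = 0 := by
  have h1 := sh u v
  rw [hu, hv, map_smul, map_smul, LinearMap.smul_apply, smul_eq_mul, smul_eq_mul] at h1
  have h2 : (μ + ν) * ω u v = 0 := by linear_combination h1
  exact (mul_eq_zero.1 h2).resolve_left hne

theorem span_le_Orth {ι : Type} {w : ι → W} (hw : ∀ i j, ω (w i) (w j) = 0) :
    Submodule.span ℂ (Set.range w) ≤ Orth ω (Submodule.span ℂ (Set.range w)) := by
  refine Submodule.span_le.2 ?_
  rintro _ ⟨j, rfl⟩
  rw [SetLike.mem_coe, mem_Orth]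
  intro u hu
  induction hu using Submodule.span_induction with
  | mem u hu =>
    obtain ⟨i, rfl⟩ := hu
    exact hw i j
  | zero => rw [map_zero, LinearMap.zero_apply]
  | add a b _ _ ha hb => rw [map_add, LinearMap.add_apply, ha, hb, add_zero]
  | smul c a _ ha => rw [map_smul, LinearMap.smul_apply, ha, smul_zero]

theorem no_two (hs : Sym ω) (hW : finrank ℂ W = 4) (sh : Skew ω h) (sf : Skew ω f)
    {t : IsSl2Triple h e f} {v : W} (P : t.HasPrimitiveVectorWith v ((2 : ℕ) : ℂ)) : False := by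
  have hw : ∀ i j : Fin 3, ω ((f ^ (i : ℕ)) v) ((f ^ (j : ℕ)) v) = 0 := by
    have h02 : ω v ((f ^ 2) v) = 0 := by
      have h1 := sf v (f v)
      rw [hs.alt, zero_add] at h1
      rw [pow_two]
      exact h1
    intro i j
    by_cases hij : (i : ℕ) + (j : ℕ) = 2
    · by_cases hi : i = j
      · subst hi
        exact hs.alt _
      · have h3 : ((i : ℕ) = 0 ∧ (j : ℕ) = 2) ∨ ((i : ℕ) = 2 ∧ (j : ℕ) = 0) := by
          have := i.2
          have := j.2
          have : (i : ℕ) ≠ (j : ℕ) := fun h => hi (Fin.ext h)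
          omega
        rcases h3 with ⟨h3, h4⟩ | ⟨h3, h4⟩
        · rw [h3, h4, pow_zero, Module.End.one_apply]
          exact h02
        · rw [h3, h4, pow_zero, Module.End.one_apply, anti hs, h02, neg_zero]
    · refine wt_orth sh (ch_h P i) (ch_h P j) fun h1 => hij ?_
      have h2 : ((i : ℕ) : ℂ) + ((j : ℕ) : ℂ) = 2 := by
        push_cast at h1
        linear_combination (-1 / 2) * h1
      exact_mod_cast h2
  have h1 := finrank_span_eq_card (ch_li P)
  rw [Fintype.card_fin] at h1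
  have h2 := Submodule.finrank_mono (span_le_Orth (ω := ω) hw)
  rw [finrank_Orth hs, h1, hW] at h2
  norm_num at h2

/-- primitive vectors of weight one -/
structure Pr (h e f : Module.End ℂ W) (v : W) : Prop where
  hv : h v = v
  ev : e v = 0
  fv : f (f v) = 0
  nz : v ≠ 0

theorem Pr.hf (T : Trip h e f) {v : W} (P : Pr h e f v) : h (f v) = -f v := by
  have h1 := LinearMap.congr_fun T.hf v
  rw [LinearMap.sub_apply, Module.End.mul_apply, Module.End.mul_apply, P.hv, LinearMap.neg_apply,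
    LinearMap.smul_apply, sub_eq_iff_eq_add] at h1
  rw [h1]
  module

theorem Pr.ef (T : Trip h e f) {v : W} (P : Pr h e f v) : e (f v) = v := by
  have h1 := LinearMap.congr_fun T.ef v
  rwa [LinearMap.sub_apply, Module.End.mul_apply, Module.End.mul_apply, P.hv, P.ev, map_zero,
    sub_zero] at h1

theorem Pr.nf (T : Trip h e f) {v : W} (P : Pr h e f v) : f v ≠ 0 := by
  intro h1
  have h2 := P.ef T
  rw [h1, map_zero] at h2
  exact P.nz h2.symm

theorem Pr.li (T : Trip h e f) {v : W} (P : Pr h e f v) {a b : ℂ} (hab : a • v + b • f v = 0) :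
    a = 0 ∧ b = 0 := by
  have h1 := congrArg e hab
  rw [map_add, map_smul, map_smul, P.ev, P.ef T, smul_zero, zero_add, map_zero] at h1
  have h2 : b = 0 := (smul_eq_zero.1 h1).resolve_right P.nz
  rw [h2, zero_smul, add_zero] at hab
  exact ⟨(smul_eq_zero.1 hab).resolve_right P.nz, h2⟩

theorem Pr.finrank (T : Trip h e f) {v : W} (P : Pr h e f v) :
    finrank ℂ (Submodule.span ℂ (Set.range ![v, f v])) = 2 := by
  rw [finrank_span_eq_card (LinearIndependent.pair_iff.2 fun a b hab => P.li T hab),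
    Fintype.card_fin]

theorem mem_pair {v w u : W} (hu : u ∈ Submodule.span ℂ (Set.range ![v, w])) :
    ∃ a b : ℂ, u = a • v + b • w := by
  rw [Matrix.range_cons, Matrix.range_cons, Matrix.range_empty, Set.union_empty,
    Set.singleton_union, Submodule.mem_span_pair] at hu
  obtain ⟨a, b, h1⟩ := hu
  exact ⟨a, b, h1.symm⟩

theorem mem_Orth_pair {v w u : W} : u ∈ Orth ω (Submodule.span ℂ (Set.range ![v, w])) ↔
    ω v u = 0 ∧ ω w u = 0 := by
  constructor
  · intro h1
    exact ⟨h1 v (Submodule.subset_span ⟨0, rfl⟩), h1 w (Submodule.subset_span ⟨1, rfl⟩)⟩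
  · rintro ⟨h1, h2⟩
    rw [mem_Orth]
    intro x hx
    obtain ⟨a, b, rfl⟩ := mem_pair hx
    rw [map_add, map_smul, map_smul, LinearMap.add_apply, LinearMap.smul_apply,
      LinearMap.smul_apply, h1, h2, smul_zero, smul_zero, add_zero]

/-- the isotropic case -/
theorem iso_case (hs : Sym ω) (hW : finrank ℂ W = 4) (T : Trip h e f) (sh : Skew ω h)
    (se : Skew ω e) (sf : Skew ω f) {v : W} (P : Pr h e f v) (h0 : ω v (f v) = 0) :
    ∃ w, Pr h e f w ∧ ω w (f v) ≠ 0 := by
  have h0' : ω (f v) v = 0 := by rw [anti hs, h0, neg_zero]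
  -- the plane is its own orthogonal
  have hP : ∀ u, ω v u = 0 → ω (f v) u = 0 → ∃ a b : ℂ, u = a • v + b • f v := by
    intro u h1 h2
    have h3 : Submodule.span ℂ (Set.range ![v, f v]) ≤
        Orth ω (Submodule.span ℂ (Set.range ![v, f v])) := by
      refine span_le_Orth fun i j => ?_
      fin_cases i <;> fin_cases j
      · exact hs.alt _
      · exact h0
      · exact h0'
      · exact hs.alt _
    have h4 := Submodule.eq_of_le_of_finrank_eq h3 (by
      rw [finrank_Orth hs, hW, P.finrank T])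
    exact mem_pair (h4 ▸ mem_Orth_pair.2 ⟨h1, h2⟩)
  -- a vector outside
  obtain ⟨w, hw1, hw2⟩ : ∃ w, ω v w = 0 ∧ ω (f v) w ≠ 0 := by
    by_contra hcon
    push Not at hcon
    obtain ⟨a, ha⟩ : ∃ a, ω v a = 1 := by
      by_contra hcon2
      push Not at hcon2
      refine P.nz (hs.nd v fun u => ?_)
      by_contra h1
      refine hcon2 ((ω v u)⁻¹ • u) ?_
      rw [map_smul, smul_eq_mul, inv_mul_cancel₀ h1]
    have h1 : f v = ω (f v) a • v := by
      rw [← sub_eq_zero]
      refine hs.nd _ fun u => ?_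
      have h2 := hcon (u - ω v u • a) (by
        rw [map_sub, map_smul, ha, smul_eq_mul, mul_one, sub_self])
      rw [map_sub, map_smul, smul_eq_mul] at h2
      rw [map_sub, map_smul, LinearMap.sub_apply, LinearMap.smul_apply, smul_eq_mul]
      linear_combination h2
    have h2 := P.hf T
    rw [h1, map_smul, P.hv, ← h1] at h2
    have h3 : (2 : ℂ) • f v = 0 := by
      rw [two_smul]
      nth_rewrite 1 [h2]
      rw [neg_add_cancel]
    exact P.nf T ((smul_eq_zero.1 h3).resolve_left two_ne_zero)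
  -- the action of `h` on it
  obtain ⟨a, b, hab⟩ := hP (h w - w) (by
      have h1 := sh v w
      rw [P.hv, hw1, zero_add] at h1
      rw [map_sub, h1, hw1, sub_zero]) (by
      have h1 := sh (f v) w
      rw [P.hf T, map_neg, LinearMap.neg_apply] at h1
      rw [map_sub]
      linear_combination h1)
  obtain ⟨w', hdef⟩ : ∃ w' : W, w' = w + (b / 2) • f v := ⟨_, rfl⟩
  have hw' : h w' = w' + a • v := by
    have h1 : h w = w + (a • v + b • f v) := by rw [← hab]; abel
    rw [hdef, map_add, map_smul, P.hf T, h1]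
    module
  have e1 : ω v w' = 0 := by
    rw [hdef, map_add, map_smul, hw1, h0, smul_zero, add_zero]
  have e2 : ω (f v) w' = ω (f v) w := by
    rw [hdef, map_add, map_smul, hs.alt, smul_zero, add_zero]
  -- `e w' = 0`
  have e3 : e w' = 0 := by
    obtain ⟨c, d, hcd⟩ := hP (e w') (by
      have h1 := se v w'
      rwa [P.ev, map_zero, LinearMap.zero_apply, zero_add] at h1) (by
      have h1 := se (f v) w'
      rwa [P.ef T, e1, zero_add] at h1)
    have h1 := LinearMap.congr_fun T.he w'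
    rw [LinearMap.sub_apply, Module.End.mul_apply, Module.End.mul_apply, hw', LinearMap.smul_apply,
      map_add, map_smul, P.ev, smul_zero, add_zero, hcd, map_add, map_smul, map_smul, P.hv,
      P.hf T] at h1
    have h2 := P.li T (a := -2 * c) (b := -4 * d) (by linear_combination (norm := module) h1)
    have h3 : c = 0 := by linear_combination (-1 / 2) * h2.1
    have h4 : d = 0 := by linear_combination (-1 / 4) * h2.2
    rw [hcd, h3, h4, zero_smul, zero_smul, add_zero]
  -- the vector `z = f w'`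
  have e4 : h (f w') = -f w' + a • f v := by
    have h1 := LinearMap.congr_fun T.hf w'
    rw [LinearMap.sub_apply, Module.End.mul_apply, Module.End.mul_apply, hw', LinearMap.neg_apply,
      LinearMap.smul_apply, sub_eq_iff_eq_add, map_add, map_smul] at h1
    rw [h1]
    module
  have e5 : f (f w') = 0 := by
    obtain ⟨p, q, hpq⟩ := hP (f (f w')) (by
      have h1 := sf v (f w')
      have h2 := sf (f v) w'
      rw [P.fv, map_zero, LinearMap.zero_apply, zero_add] at h2
      rwa [h2, zero_add] at h1) (by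
      have h1 := sf (f v) (f w')
      rwa [P.fv, map_zero, LinearMap.zero_apply, zero_add] at h1)
    have h1 := LinearMap.congr_fun T.hf (f w')
    rw [LinearMap.sub_apply, Module.End.mul_apply, Module.End.mul_apply, e4, LinearMap.neg_apply,
      LinearMap.smul_apply, map_add, map_smul, P.fv, smul_zero, add_zero, map_neg, hpq, map_add,
      map_smul, map_smul, P.hv, P.hf T] at h1
    have h2 := P.li T (a := 4 * p) (b := 2 * q) (by linear_combination (norm := module) h1)
    have h3 : p = 0 := by linear_combination (1 / 4) * h2.1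
    have h4 : q = 0 := by linear_combination (1 / 2) * h2.2
    rw [hpq, h3, h4, zero_smul, zero_smul, add_zero]
  have e6 : a = 0 := by
    have h1 := LinearMap.congr_fun T.ef w'
    rw [LinearMap.sub_apply, Module.End.mul_apply, Module.End.mul_apply, e3, map_zero, sub_zero,
      hw'] at h1
    have h2 := LinearMap.congr_fun T.ef (f w')
    rw [LinearMap.sub_apply, Module.End.mul_apply, Module.End.mul_apply, e5, map_zero, h1,
      map_add, map_smul, e4] at h2
    have h3 : (2 * a) • f v = 0 := by linear_combination (norm := module) -h2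
    have h4 := (smul_eq_zero.1 h3).resolve_right (P.nf T)
    linear_combination (1 / 2) * h4
  refine ⟨w', ⟨?_, e3, e5, ?_⟩, ?_⟩
  · rw [hw', e6, zero_smul, add_zero]
  · intro h1
    rw [h1, map_zero] at e2
    exact hw2 e2.symm
  · rw [anti hs, e2]
    exact neg_ne_zero.2 hw2

theorem scale (hs : Sym ω) (T : Trip h e f) {v : W} (P : Pr h e f v) (h0 : ω v (f v) ≠ 0) :
    ∃ c : ℂ, Pr h e f (c • v) ∧ ω (c • v) (f (c • v)) = 1 := by
  obtain ⟨c, hc⟩ := IsAlgClosed.exists_pow_nat_eq (ω v (f v))⁻¹ (n := 2) (by norm_num)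
  refine ⟨c, ⟨by rw [map_smul, P.hv], by rw [map_smul, P.ev, smul_zero],
    by rw [map_smul, map_smul, P.fv, smul_zero], ?_⟩, ?_⟩
  · refine smul_ne_zero ?_ P.nz
    rintro rfl
    rw [zero_pow two_ne_zero] at hc
    exact inv_ne_zero h0 hc.symm
  · rw [map_smul, map_smul, LinearMap.smul_apply, map_smul, smul_eq_mul, smul_eq_mul, ← mul_assoc,
      ← pow_two, hc, inv_mul_cancel₀ h0]

/-- a primitive vector of weight one which is good for the form -/
theorem good_vec (hs : Sym ω) (hW : finrank ℂ W = 4) (T : Trip h e f) (sh : Skew ω h)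
    (se : Skew ω e) (sf : Skew ω f) {v : W} (P : Pr h e f v) :
    ∃ u, Pr h e f u ∧ ω u (f u) = 1 := by
  suffices h1 : ∃ u, Pr h e f u ∧ ω u (f u) ≠ 0 by
    obtain ⟨u, P', h2⟩ := h1
    obtain ⟨c, h3, h4⟩ := scale hs T P' h2
    exact ⟨_, h3, h4⟩
  by_cases h0 : ω v (f v) = 0
  swap
  · exact ⟨v, P, h0⟩
  obtain ⟨w, Q, h1⟩ := iso_case hs hW T sh se sf P h0
  by_cases h2 : ω w (f w) = 0
  swap
  · exact ⟨w, Q, h2⟩
  have h3 : ω (v + w) (f (v + w)) ≠ 0 := by
    have h4 := sf v w
    have h5 := anti hs (f v) w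
    have h6 : ω (v + w) (f (v + w)) = 2 * ω w (f v) := by
      simp only [map_add, LinearMap.add_apply]
      linear_combination h0 + h2 + h4 - h5
    rw [h6]
    exact mul_ne_zero two_ne_zero h1
  refine ⟨v + w, ⟨?_, ?_, ?_, ?_⟩, h3⟩
  · rw [map_add, P.hv, Q.hv]
  · rw [map_add, P.ev, Q.ev, add_zero]
  · rw [map_add, map_add, P.fv, Q.fv, add_zero]
  · intro h4
    rw [h4, map_zero, LinearMap.zero_apply] at h3
    exact h3 rfl

/-- symplectic bases from vectors -/
theorem dar (hs : Sym ω) (hW : finrank ℂ W = 4) {u u' p q : W} (h01 : ω u u' = 1)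
    (h23 : ω p q = 1) (h02 : ω u p = 0) (h03 : ω u q = 0) (h12 : ω u' p = 0) (h13 : ω u' q = 0) :
    ∃ b : Basis (Fin 4) ℂ W, b 0 = u ∧ b 1 = u' ∧ b 2 = p ∧ b 3 = q ∧ Dar ω b := by
  have h10 := anti hs u' u
  have h32 := anti hs q p
  have h20 := anti hs p u
  have h30 := anti hs q u
  have h21 := anti hs p u'
  have h31 := anti hs q u'
  rw [h01] at h10
  rw [h23] at h32
  rw [h02, neg_zero] at h20
  rw [h03, neg_zero] at h30
  rw [h12, neg_zero] at h21
  rw [h13, neg_zero] at h31
  have hli : LinearIndependent ℂ ![u, u', p, q] := by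
    rw [Fintype.linearIndependent_iff]
    intro g hg
    rw [Fin.sum_univ_four] at hg
    have hg' : g 0 • u + g 1 • u' + g 2 • p + g 3 • q = 0 := hg
    have k0 := congrArg (fun x => ω x u') hg'
    have k1 := congrArg (fun x => ω x u) hg'
    have k2 := congrArg (fun x => ω x q) hg'
    have k3 := congrArg (fun x => ω x p) hg'
    simp only [map_add, map_smul, LinearMap.add_apply, LinearMap.smul_apply, smul_eq_mul,
      map_zero, LinearMap.zero_apply, hs.alt, h01, h23, h02, h03, h12, h13, h10, h32, h20, h30,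
      h21, h31, mul_zero, mul_one, add_zero, zero_add, mul_neg, neg_eq_zero] at k0 k1 k2 k3
    intro i
    fin_cases i
    · exact k0
    · exact k1
    · exact k2
    · exact k3
  let b := basisOfLinearIndependentOfCardEqFinrank hli (by rw [Fintype.card_fin, hW])
  have hb : ∀ i, b i = ![u, u', p, q] i := fun i => by
    rw [coe_basisOfLinearIndependentOfCardEqFinrank]
  have b0 : b 0 = u := hb 0
  have b1 : b 1 = u' := hb 1
  have b2 : b 2 = p := hb 2
  have b3 : b 3 = q := hb 3
  refine ⟨b, b0, b1, b2, b3, ?_, ?_, ?_, ?_, ?_, ?_⟩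
  · rw [b0, b1, h01]
  · rw [b2, b3, h23]
  · rw [b0, b2, h02]
  · rw [b0, b3, h03]
  · rw [b1, b2, h12]
  · rw [b1, b3, h13]

/-- the complement -/
theorem compl (hs : Sym ω) (hW : finrank ℂ W = 4) (T : Trip h e f) (sh : Skew ω h)
    (se : Skew ω e) (sf : Skew ω f) {u : W} (P : Pr h e f u) (h1 : ω u (f u) = 1) :
    (∃ b : Basis (Fin 4) ℂ W, Dar ω b ∧ Ty1 h e f b) ∨
    (∃ b : Basis (Fin 4) ℂ W, Dar ω b ∧ Ty2 h e f b) := by
  obtain ⟨Q, hQ⟩ : ∃ Q : Submodule ℂ W, Q = Orth ω (Submodule.span ℂ (Set.range ![u, f u])) :=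
    ⟨_, rfl⟩
  have mQ : ∀ x, x ∈ Q ↔ ω u x = 0 ∧ ω (f u) x = 0 := fun x => by
    rw [hQ]
    exact mem_Orth_pair
  have fQ : finrank ℂ Q = 2 := by
    rw [hQ, finrank_Orth hs, hW, P.finrank T]
  have sthQ : ∀ x ∈ Q, h x ∈ Q := by
    intro x hx
    obtain ⟨h2, h3⟩ := (mQ x).1 hx
    have h4 := sh u x
    have h5 := sh (f u) x
    rw [P.hv, h2, zero_add] at h4
    rw [P.hf T, map_neg, LinearMap.neg_apply, h3, neg_zero, zero_add] at h5
    exact (mQ _).2 ⟨h4, h5⟩
  have steQ : ∀ x ∈ Q, e x ∈ Q := by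
    intro x hx
    obtain ⟨h2, h3⟩ := (mQ x).1 hx
    have h4 := se u x
    have h5 := se (f u) x
    rw [P.ev, map_zero, LinearMap.zero_apply, zero_add] at h4
    rw [P.ef T, h2, zero_add] at h5
    exact (mQ _).2 ⟨h4, h5⟩
  have stfQ : ∀ x ∈ Q, f x ∈ Q := by
    intro x hx
    obtain ⟨h2, h3⟩ := (mQ x).1 hx
    have h4 := sf u x
    have h5 := sf (f u) x
    rw [h3, zero_add] at h4
    rw [P.fv, map_zero, LinearMap.zero_apply, zero_add] at h5
    exact (mQ _).2 ⟨h4, h5⟩
  have ndQ : ∀ x ∈ Q, (∀ y ∈ Q, ω x y = 0) → x = 0 := by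
    intro x hx hy
    obtain ⟨h2, h3⟩ := (mQ x).1 hx
    refine hs.nd x fun w => ?_
    have h4 : ω x u = 0 := by rw [anti hs, h2, neg_zero]
    have h5 : ω x (f u) = 0 := by rw [anti hs, h3, neg_zero]
    have h6 := hy (w - (ω w (f u)) • u + (ω w u) • f u) ((mQ _).2 ⟨?_, ?_⟩)
    · rw [map_add, map_sub, map_smul, map_smul, h4, h5, smul_zero, smul_zero, sub_zero,
        add_zero] at h6
      exact h6
    · rw [map_add, map_sub, map_smul, map_smul, hs.alt, h1, anti hs w u]
      simp
    · rw [map_add, map_sub, map_smul, map_smul, hs.alt, anti hs (f u) u, h1, anti hs w (f u)]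
      simp
  by_cases hc : ∀ x ∈ Q, e x = 0
  · left
    have hh : ∀ x ∈ Q, h x = 0 := by
      intro x hx
      have h2 := LinearMap.congr_fun T.ef x
      rw [LinearMap.sub_apply, Module.End.mul_apply, Module.End.mul_apply, hc x hx, map_zero,
        hc _ (stfQ x hx), sub_zero] at h2
      exact h2.symm
    have hf : ∀ x ∈ Q, f x = 0 := by
      intro x hx
      have h2 := LinearMap.congr_fun T.hf x
      rw [LinearMap.sub_apply, Module.End.mul_apply, Module.End.mul_apply, hh x hx, map_zero,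
        hh _ (stfQ x hx), sub_zero, LinearMap.neg_apply, LinearMap.smul_apply] at h2
      have h3 := neg_eq_zero.1 h2.symm
      exact (smul_eq_zero.1 h3).resolve_left two_ne_zero
    obtain ⟨p, hp, hp0⟩ : ∃ p ∈ Q, p ≠ 0 := by
      by_contra hcon
      push Not at hcon
      have h2 : Q = ⊥ := (Submodule.eq_bot_iff _).2 hcon
      rw [h2, finrank_bot] at fQ
      norm_num at fQ
    obtain ⟨q, hq, hpq⟩ : ∃ q ∈ Q, ω p q = 1 := by
      by_contra hcon
      push Not at hcon
      refine hp0 (ndQ p hp fun y hy => ?_)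
      by_contra h2
      refine hcon ((ω p y)⁻¹ • y) (Q.smul_mem _ hy) ?_
      rw [map_smul, smul_eq_mul, inv_mul_cancel₀ h2]
    obtain ⟨b, b0, b1, b2, b3, hb⟩ := dar hs hW h1 hpq ((mQ p).1 hp).1 ((mQ q).1 hq).1
      ((mQ p).1 hp).2 ((mQ q).1 hq).2
    refine ⟨b, hb, ?_⟩
    constructor
    · rw [b0, P.hv]
    · rw [b1, P.hf T]
    · rw [b2, hh p hp]
    · rw [b3, hh q hq]
    · rw [b0, P.ev]
    · rw [b1, b0, P.ef T]
    · rw [b2, hc p hp]
    · rw [b3, hc q hq]
    · rw [b0, b1]
    · rw [b1, P.fv]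
    · rw [b2, hf p hp]
    · rw [b3, hf q hq]
  · right
    push Not at hc
    obtain ⟨x0, hx0, hx1⟩ := hc
    let h' : Module.End ℂ Q := h.restrict sthQ
    let e' : Module.End ℂ Q := e.restrict steQ
    let f' : Module.End ℂ Q := f.restrict stfQ
    have T' : Trip h' e' f' := by
      refine ⟨?_, ?_, ?_⟩
      · refine LinearMap.ext fun x => Subtype.ext ?_
        exact LinearMap.congr_fun T.he (x : W)
      · refine LinearMap.ext fun x => Subtype.ext ?_
        exact LinearMap.congr_fun T.hf (x : W)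
      · refine LinearMap.ext fun x => Subtype.ext ?_
        exact LinearMap.congr_fun T.ef (x : W)
    have he' : e' ≠ 0 := by
      intro h2
      exact hx1 (congrArg Subtype.val (LinearMap.congr_fun h2 ⟨x0, hx0⟩))
    have t' := sl2 T' he'
    obtain ⟨n, v, Pv, hn⟩ := exists_pos T' he' t'
    have hn1 : n = 1 := by
      have h2 := (ch_li Pv).fintype_card_le_finrank
      rw [Fintype.card_fin, fQ] at h2
      omega
    subst hn1
    have k1 : h (v : W) = v := by
      have h2 : h' v = ((1 : ℕ) : ℂ) • v := Pv.lie_h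
      rw [Nat.cast_one, one_smul] at h2
      exact congrArg Subtype.val h2
    have k2 : e (v : W) = 0 := by
      have h2 : e' v = 0 := Pv.lie_e
      exact congrArg Subtype.val h2
    have k3 : f (f (v : W)) = 0 := by
      have h2 := ch_zero Pv
      rw [pow_two] at h2
      exact congrArg Subtype.val h2
    have k4 : (v : W) ≠ 0 := fun h2 => Pv.ne_zero (Subtype.ext h2)
    have P' : Pr h e f (v : W) := ⟨k1, k2, k3, k4⟩
    have k5 : ω (v : W) (f v) ≠ 0 := by
      intro h2
      refine k4 (ndQ _ v.2 fun y hy => ?_)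
      have h3 : Submodule.span ℂ (Set.range ![(v : W), f v]) ≤ Q := by
        refine Submodule.span_le.2 ?_
        rintro _ ⟨i, rfl⟩
        fin_cases i
        · exact v.2
        · exact stfQ _ v.2
      have h4 := Submodule.eq_of_le_of_finrank_eq h3 (by rw [fQ, P'.finrank T])
      obtain ⟨a, b, rfl⟩ := mem_pair (h4 ▸ hy)
      rw [map_add, map_smul, map_smul, hs.alt, h2, smul_zero, smul_zero, add_zero]
    obtain ⟨c, P2, k6⟩ := scale hs T P' k5
    have hm : c • (v : W) ∈ Q := Q.smul_mem _ v.2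
    have hm2 := stfQ _ hm
    obtain ⟨b, b0, b1, b2, b3, hb⟩ := dar hs hW h1 k6 ((mQ _).1 hm).1 ((mQ _).1 hm2).1
      ((mQ _).1 hm).2 ((mQ _).1 hm2).2
    refine ⟨b, hb, ?_⟩
    constructor
    · rw [b0, P.hv]
    · rw [b1, P.hf T]
    · rw [b2, P2.hv]
    · rw [b3, P2.hf T]
    · rw [b0, P.ev]
    · rw [b1, b0, P.ef T]
    · rw [b2, P2.ev]
    · rw [b3, b2, P2.ef T]
    · rw [b0, b1]
    · rw [b1, P.fv]
    · rw [b2, b3]
    · rw [b3, P2.fv]

end form

theorem typ : S_TYP := by
  intro W _ _ _ ω h e f hs hW T sh se sf he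
  have t := sl2 T he
  obtain ⟨n, v, P, hn⟩ := exists_pos T he t
  have hn3 : n ≤ 3 := by
    have h2 := (ch_li P).fintype_card_le_finrank
    rw [Fintype.card_fin, hW] at h2
    omega
  have hn4 : n = 1 ∨ n = 2 ∨ n = 3 := by omega
  rcases hn4 with rfl | rfl | rfl
  · right
    have k1 : h v = v := by
      have h2 : h v = ((1 : ℕ) : ℂ) • v := P.lie_h
      rwa [Nat.cast_one, one_smul] at h2
    have k2 : e v = 0 := P.lie_e
    have k3 : f (f v) = 0 := by
      have h2 := ch_zero P
      rw [pow_two] at h2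
      exact h2
    obtain ⟨u, Pu, hu⟩ := good_vec hs hW T sh se sf ⟨k1, k2, k3, P.ne_zero⟩
    exact compl hs hW T sh se sf Pu hu
  · exact (no_two hs hW sh sf P).elim
  · left
    let b := basisOfLinearIndependentOfCardEqFinrank (ch_li P) (by rw [Fintype.card_fin, hW])
    have hb : ∀ i : Fin 4, b i = (f ^ (i : ℕ)) v := fun i => by
      rw [coe_basisOfLinearIndependentOfCardEqFinrank]
    refine ⟨b, ?_, ?_, ?_, ?_, ?_⟩
    · intro k
      rw [hb, ch_h P]
    · intro k
      rw [hb, hb, Fin.val_castSucc, Fin.val_succ, pow_succ', Module.End.mul_apply]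
    · rw [hb, Fin.val_last]
      have h2 := ch_zero P
      rwa [pow_succ', Module.End.mul_apply] at h2
    · intro k
      rw [hb, hb, Fin.val_castSucc, Fin.val_succ, ch_e P]
    · rw [hb]
      exact P.lie_e

end Pool.Agent.P8H45.SW.Typ
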